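import Mathlib
import Pool.Agent.H231EC.Final

set_option autoImplicit false

namespace Pool.Agent.Results.MP_ab3574_co.VizingThreshold

open Classical in
/-- `ColLE G c`: the vertices of `G` can be ordered so that every vertex has fewer than `c`
neighbours earlier in the order, that is, the coloring number of `G` is at most `c`. -/
def ColLE {V : Type} [Fintype V] (G : SimpleGraph V) (c : ℕ) : Prop :=
  ∃ r : V ≃ Fin (Fintype.card V),
    ∀ v : V, (Finset.univ.filter (fun w : V => G.Adj v w ∧ r w < r v)).card < c

open Classical in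
/-- The maximum degree of a finite graph. -/
noncomputable def maxDeg {V : Type} [Fintype V] (G : SimpleGraph V) : ℕ := G.maxDegree

/-- `ClassOne G`: the edges of `G` can be properly coloured with maximum-degree many colours. -/
def ClassOne {V : Type} [Fintype V] (G : SimpleGraph V) : Prop :=
  ∃ f : G.edgeSet → Fin (maxDeg G), ∀ e e' : G.edgeSet, e ≠ e' →
    (∃ v : V, v ∈ (e : Sym2 V) ∧ v ∈ (e' : Sym2 V)) → f e ≠ f e'

/-- `threshold k` is the least positive integer `s` such that every finite graph with coloring
number at most `k + 1` and maximum degree at least `s` is of class one. -/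
noncomputable def threshold (k : ℕ) : ℕ :=
  sInf {s : ℕ | 1 ≤ s ∧ ∀ (V : Type) [Fintype V] (G : SimpleGraph V),
    ColLE G (k + 1) → s ≤ maxDeg G → ClassOne G}

/-- Vizing's conjecture on the class-one threshold, with an explicit constant: for every
`k ≥ 200`, every graph with coloring number at most `k + 1` and maximum degree at least `2k - 1`
is of class one, and so the threshold is at most `2k - 1`. -/
theorem result :
    ∀ k : ℕ, 200 ≤ k →
      (∀ (V : Type) [Fintype V] (G : SimpleGraph V),
        ColLE G (k + 1) → 2 * k - 1 ≤ maxDeg G → ClassOne G) ∧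
      threshold k ≤ 2 * k - 1 := by
  intro k hk
  have main : ∀ (V : Type) [Fintype V] (G : SimpleGraph V),
      ColLE G (k + 1) → 2 * k - 1 ≤ maxDeg G → ClassOne G := by
    intro V _ G hcol hdeg
    classical
    obtain ⟨r, hr⟩ := hcol
    have hdgn : ∀ s : Finset V, s.Nonempty →
        ∃ v ∈ s, (s.filter (fun w => G.Adj v w)).card ≤ k := by
      intro s hs
      obtain ⟨v, hv, hmax⟩ := Finset.exists_max_image s r hs
      refine ⟨v, hv, ?_⟩
      have h1 := hr v
      have h2 : (s.filter (fun w => G.Adj v w)).card ≤
          (Finset.univ.filter (fun w : V => G.Adj v w ∧ r w < r v)).card := by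
        apply Finset.card_le_card
        intro w hw
        rw [Finset.mem_filter] at hw
        rw [Finset.mem_filter]
        refine ⟨Finset.mem_univ _, hw.2, lt_of_le_of_ne (hmax w hw.1) ?_⟩
        intro h
        have : w = v := r.injective h
        exact G.ne_of_adj hw.2 this.symm
      have h3 : (Finset.univ.filter (fun w : V => G.Adj v w ∧ r w < r v)).card < k + 1 := by
        convert h1
      omega
    have h1 : Nonempty (Pool.Agent.H231EC.ECol G (Fin (maxDeg G))) := by
      apply Pool.Agent.H231EC.final_ind k (maxDeg G) hk hdeg _ G rfl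
      · intro s hs
        obtain ⟨v, hv, hc⟩ := hdgn s hs
        refine ⟨v, hv, ?_⟩
        convert hc
      · intro v
        have h4 : G.degree v ≤ maxDeg G := by
          unfold maxDeg
          convert G.degree_le_maxDegree v
        refine le_trans (le_of_eq ?_) h4
        unfold Pool.Agent.H231EC.dg
        rw [← SimpleGraph.card_neighborFinset_eq_degree]
        congr 1
        ext w
        simp only [Finset.mem_filter, Finset.mem_univ, true_and, SimpleGraph.mem_neighborFinset]
    obtain ⟨φ⟩ := h1
    have hex : ∀ e : G.edgeSet, ∃ u v : V, (e : Sym2 V) = s(u, v) ∧ G.Adj u v := by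
      rintro ⟨e, he⟩
      induction e using Sym2.ind with
      | _ u v => exact ⟨u, v, rfl, he⟩
    choose a b hab hadj using hex
    refine ⟨fun e => φ.c (a e) (b e), ?_⟩
    intro e e' hne ⟨v, hv, hv'⟩ heq
    simp only at heq
    have key : ∀ e : G.edgeSet, v ∈ (e : Sym2 V) →
        ∃ w, (e : Sym2 V) = s(v, w) ∧ G.Adj v w ∧ φ.c v w = φ.c (a e) (b e) := by
      intro e hv
      rw [hab e, Sym2.mem_iff] at hv
      rcases hv with rfl | rfl
      · exact ⟨b e, hab e, hadj e, rfl⟩
      · exact ⟨a e, by rw [hab e, Sym2.eq_swap], (hadj e).symm, (φ.symm _ _ (hadj e)).symm⟩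
    obtain ⟨w, hw1, hw2, hw3⟩ := key e hv
    obtain ⟨w', hw1', hw2', hw3'⟩ := key e' hv'
    have hww : w = w' := φ.proper v w w' hw2 hw2' (by rw [hw3, hw3', heq])
    apply hne
    apply Subtype.ext
    rw [hw1, hw1', hww]
  refine ⟨main, Nat.sInf_le ⟨by omega, ?_⟩⟩
  intro V _ G h1 h2
  exact main V G h1 h2

end Pool.Agent.Results.MP_ab3574_co.VizingThreshold
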